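import Pool.Agent.TH143.LG.Aff
import Pool.Agent.TH143.GE.Iff

/-!
Affine varieties: the converse, sequences of points on images of the multiplicative group.
-/

set_option autoImplicit false
set_option linter.unusedSectionVars false

namespace Pool.Agent.TH143.LG

open MvPolynomial Filter Pool.Agent.TH143.DE Pool.Agent.TH143.HE Pool.Agent.TH143.TW
open Pool.Agent.TH143.GE

variable {A B : Subalgebra ℂ (ℕ → ℂ)} {n : ℕ} {R : Type} [CommRing R]

/-- periodic elements of a field of sequences -/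
theorem const_of_per (hB : CoefField B) {f : ℕ → ℂ} (hf : f ∈ B) {M m0 : ℕ} (hM : 0 < M)
    (h : ∀ m, m0 ≤ m → f (m + M) = f m) : ∀ᶠ m in atTop, f m = f m0 := by
  have h1 : (fun m => f m - f m0) ∈ B := B.sub_mem hf (B.algebraMap_mem (f m0))
  rcases hB.dich _ h1 with h2 | h2
  · filter_upwards [h2] with m hm
    exact sub_eq_zero.1 hm
  · exfalso
    obtain ⟨m1, hm1⟩ := eventually_atTop.1 h2
    have h3 : ∀ r : ℕ, f (m0 + M * r) = f m0 := by
      intro r
      induction r with
      | zero => rw [Nat.mul_zero, Nat.add_zero]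
      | succ r ih =>
        rw [← ih, ← h (m0 + M * r) (by
          have := Nat.zero_le (M * r)
          omega)]
        congr 1
        ring
    apply hm1 (m0 + M * m1) (by nlinarith [Nat.zero_le m0])
    rw [h3, sub_self]

/-- the powers of two -/
noncomputable def tw : ℕ → ℂ := fun m => 2 ^ m

theorem tw_inj : Function.Injective tw := by
  intro a b h
  have h1 : ((2 ^ a : ℕ) : ℂ) = ((2 ^ b : ℕ) : ℂ) := by
    push_cast
    exact h
  exact Nat.pow_right_injective (le_refl 2) (by exact_mod_cast h1)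

theorem tw_ne (m : ℕ) : tw m ≠ 0 := pow_ne_zero _ two_ne_zero

noncomputable def twi : ℕ → ℂ := fun m => (2 ^ m)⁻¹

theorem int_tw : IntRing (Algebra.adjoin ℂ ({tw, twi} : Set (ℕ → ℂ))) (ratB tw tw_inj) := by
  classical
  refine ⟨ratB_field tw_inj (Polynomial.C 2 * Polynomial.X) (fun m => ?_), ratB_fg tw_inj,
    ratB_tr tw_inj, ?_, ⟨{tw, twi}, by simp⟩, ?_⟩
  · rw [Polynomial.eval_mul, Polynomial.eval_C, Polynomial.eval_X]
    unfold tw
    rw [pow_succ, mul_comm]
  · apply Algebra.adjoin_le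
    rintro f (rfl | rfl)
    · exact ⟨Polynomial.X, 1, one_ne_zero, Eventually.of_forall fun m => by
        rw [Polynomial.eval_X, Polynomial.eval_one, div_one]⟩
    · exact ⟨1, Polynomial.X, Polynomial.X_ne_zero, Eventually.of_forall fun m => by
        rw [Polynomial.eval_X, Polynomial.eval_one, one_div]
        rfl⟩
  · intro f hf
    induction hf using Algebra.adjoin_induction with
    | mem f hf =>
      rcases hf with rfl | rfl
      · have h1 : (fun m => tw (m + 1)) = algebraMap ℂ (ℕ → ℂ) 2 * tw := by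
          funext m
          rw [Pi.mul_apply]
          change (2 : ℂ) ^ (m + 1) = 2 * 2 ^ m
          rw [pow_succ, mul_comm]
        rw [h1]
        exact mul_mem (Subalgebra.algebraMap_mem _ _) (Algebra.subset_adjoin (Or.inl rfl))
      · have h1 : (fun m => twi (m + 1)) = algebraMap ℂ (ℕ → ℂ) 2⁻¹ * twi := by
          funext m
          rw [Pi.mul_apply]
          change ((2 : ℂ) ^ (m + 1))⁻¹ = 2⁻¹ * (2 ^ m)⁻¹
          rw [pow_succ, mul_inv, mul_comm]
        rw [h1]
        exact mul_mem (Subalgebra.algebraMap_mem _ _) (Algebra.subset_adjoin (Or.inr rfl))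
    | algebraMap c => exact Subalgebra.algebraMap_mem _ c
    | add f g _ _ hf hg => exact add_mem hf hg
    | mul f g _ _ hf hg => exact mul_mem hf hg

/-- **The converse.** -/
theorem gm_of_seq {φ : R →+* ℂ} {I I' : Ideal (MvPolynomial (Fin n) R)}
    (h : ∀ A B : Subalgebra ℂ (ℕ → ℂ), IntRing A B → ∀ x : ℕ → Fin n → ℂ,
      (∀ j, (fun m => x m j) ∈ A) → (∀ᶠ m in atTop, IsPt φ I (x m)) →
      (∀ᶠ m in atTop, ¬ IsPt φ I' (x m)) → ∃ M m0, 0 < M ∧ ∀ m, m0 ≤ m → x (m + M) = x m) :
    GmCurvesIn φ I I' := by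
  classical
  intro l p h1 ⟨u1, hu1, hne⟩ u2 hu2
  by_contra hI'
  rw [isPt_iff] at hI'
  push Not at hI'
  obtain ⟨G, hG, hG0⟩ := hI'
  have hmem : ∀ j, (fun m => gm l p (tw m) j) ∈ Algebra.adjoin ℂ ({tw, twi} : Set (ℕ → ℂ)) := by
    intro j
    have h2 : (fun m => gm l p (tw m) j) = Polynomial.aeval tw (p j) * twi ^ l := by
      funext m
      rw [Pi.mul_apply, aeval_seq, Pi.pow_apply]
      unfold gm twi
      rw [inv_pow, ← div_eq_mul_inv]
      rfl
    rw [h2]
    have h3 : tw ∈ Algebra.adjoin ℂ ({tw, twi} : Set (ℕ → ℂ)) := Algebra.subset_adjoin (Or.inl rfl)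
    have h4 : twi ∈ Algebra.adjoin ℂ ({tw, twi} : Set (ℕ → ℂ)) := Algebra.subset_adjoin (Or.inr rfl)
    refine mul_mem ?_ (pow_mem h4 l)
    have h5 : ({tw} : Set (ℕ → ℂ)) ⊆ {tw, twi} := Set.singleton_subset_iff.2 (Or.inl rfl)
    exact Algebra.adjoin_mono h5 (Polynomial.aeval_mem_adjoin_singleton ℂ tw)
  -- outside of the subvariety
  let v : Fin (n + 1) → Polynomial ℂ := Fin.cons (Polynomial.X ^ l) p
  have hv : ∀ u : ℂ, u ≠ 0 → ((aeval v (homog G) : Polynomial ℂ).eval u) =
      (u ^ l) ^ G.totalDegree * eval (gm l p u) G := by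
    intro u hu
    rw [eval_aeval]
    have h1 := eval_homog G (fun k => (v k).eval u) (by
      change (Polynomial.X ^ l : Polynomial ℂ).eval u ≠ 0
      rw [Polynomial.eval_pow, Polynomial.eval_X]
      exact pow_ne_zero _ hu)
    rw [h1]
    have h2 : (v 0).eval u = u ^ l := by
      change (Polynomial.X ^ l : Polynomial ℂ).eval u = _
      rw [Polynomial.eval_pow, Polynomial.eval_X]
    rw [h2]
    rfl
  have hH : (aeval v (homog G) : Polynomial ℂ) ≠ 0 := by
    intro h0
    have h2 := hv u2 hu2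
    rw [h0, Polynomial.eval_zero] at h2
    exact mul_ne_zero (pow_ne_zero _ (pow_ne_zero _ hu2)) hG0 h2.symm
  have hoff : ∀ᶠ m in atTop, ¬ IsPt φ I' (gm l p (tw m)) := by
    filter_upwards [ev_ne tw_inj hH] with m hm h2
    apply hm
    rw [hv _ (tw_ne m), (isPt_iff φ I' _).1 h2 G hG, mul_zero]
  obtain ⟨M, m0, hM, hper⟩ := h _ _ int_tw (fun m => gm l p (tw m)) hmem
    (Eventually.of_forall fun m => h1 _ (tw_ne m)) hoff
  apply hne
  have hc : ∀ j, p j = Polynomial.C (gm l p (tw m0) j) * Polynomial.X ^ l := by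
    intro j
    have h2 := const_of_per int_tw.field (int_tw.le (hmem j)) hM
      (fun m hm => congrFun (hper m hm) j)
    by_contra hne2
    have h3 := ev_ne tw_inj (sub_ne_zero.2 hne2)
    obtain ⟨m, h4, h5⟩ := (h2.and h3).exists
    apply h5
    rw [Polynomial.eval_sub, Polynomial.eval_mul, Polynomial.eval_C, Polynomial.eval_pow,
      Polynomial.eval_X, ← h4]
    unfold gm
    rw [div_mul_cancel₀ _ (pow_ne_zero _ (tw_ne m)), sub_self]
  funext j
  have h6 : ∀ u : ℂ, u ≠ 0 → gm l p u j = gm l p (tw m0) j := by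
    intro u hu
    have h7 : gm l p u j = (p j).eval u / u ^ l := rfl
    rw [h7]
    conv_lhs => rw [hc j]
    rw [Polynomial.eval_mul, Polynomial.eval_C, Polynomial.eval_pow, Polynomial.eval_X,
      mul_div_cancel_right₀ _ (pow_ne_zero _ hu)]
  rw [h6 u1 hu1, h6 1 one_ne_zero]

end Pool.Agent.TH143.LG
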