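import Pool.Agent.TH143.LG.Fld
import Pool.Agent.TH143.GE.Tow1

/-!
Affine varieties: sequences of points given by monic linear recurrences over a finitely generated
difference ring of sequences of transcendence degree one.
-/

set_option autoImplicit false
set_option linter.unusedSectionVars false

namespace Pool.Agent.TH143.LG

open MvPolynomial Filter Pool.Agent.TH143.DE Pool.Agent.TH143.HE Pool.Agent.TH143.TW FF
open Module Pool.Agent.TH143.GE

/-- `B` is a finitely generated field of sequences of transcendence degree at most one, and `A` is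
a finitely generated subalgebra of `B` which is closed under the shift. -/
structure IntRing (A B : Subalgebra ℂ (ℕ → ℂ)) : Prop where
  field : CoefField B
  gen : FinGen B
  tr : TrLe B 1
  le : A ≤ B
  fg : A.FG
  shift : ∀ f ∈ A, (fun m => f (m + 1)) ∈ A

/-- The sequence satisfies a monic (possibly inhomogeneous) linear recurrence with coefficients
in `A`. -/
def MonRec (A : Subalgebra ℂ (ℕ → ℂ)) (f : ℕ → ℂ) : Prop :=
  ∃ (r : ℕ) (a : ℕ → ℕ → ℂ) (b : ℕ → ℂ), (∀ k, a k ∈ A) ∧ b ∈ A ∧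
    ∀ᶠ m in atTop, f (m + r) = b m + ∑ k ∈ Finset.range r, a k m * f (m + k)

variable {A B : Subalgebra ℂ (ℕ → ℂ)} {n : ℕ} {R : Type} [CommRing R]

theorem IntRing.shift' (h : IntRing A B) {f : ℕ → ℂ} (hf : f ∈ A) (s : ℕ) :
    (fun m => f (m + s)) ∈ A := by
  induction s with
  | zero => exact hf
  | succ s ih =>
    have h1 := h.shift _ ih
    have h2 : (fun m => f (m + (s + 1))) = fun m => f (m + 1 + s) := by
      funext m
      congr 1
      ring
    rw [h2]
    exact h1

theorem MonRec.shift (h : IntRing A B) {f : ℕ → ℂ} (hf : MonRec A f) (s : ℕ) :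
    MonRec A fun m => f (m + s) := by
  obtain ⟨r, a, b, ha, hb, h1⟩ := hf
  refine ⟨r, fun k m => a k (m + s), fun m => b (m + s), fun k => h.shift' (ha k) s,
    h.shift' hb s, ?_⟩
  filter_upwards [eventually_shift h1 s] with m hm
  have h2 : m + r + s = m + s + r := by ring
  rw [h2, hm]
  congr 1
  refine Finset.sum_congr rfl fun k _ => ?_
  have h3 : m + s + k = m + k + s := by ring
  rw [h3]

theorem monRec_of_mem {f : ℕ → ℂ} (hf : f ∈ A) : MonRec A f :=
  ⟨0, fun _ => 0, f, fun _ => A.zero_mem, hf, Eventually.of_forall fun m => by simp⟩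

/-- the recurrence, in the algebra of germs -/
theorem monRec_gg {f : ℕ → ℂ} (hf : MonRec A f) : ∃ (r : ℕ) (a : ℕ → ℕ → ℂ) (b : ℕ → ℂ),
    (∀ k, a k ∈ A) ∧ b ∈ A ∧
    (shG ^ r) (gg f) = gg b + ∑ k ∈ Finset.range r, gg (a k) * (shG ^ k) (gg f) := by
  obtain ⟨r, a, b, ha, hb, h1⟩ := hf
  refine ⟨r, a, b, ha, hb, ?_⟩
  have h2 : ∀ k, gg (a k) * (shG ^ k) (gg f) = gg fun m => a k m * f (m + k) := by
    intro k
    rw [shG_pow, ← map_mul]
    rfl
  rw [Finset.sum_congr rfl fun k _ => h2 k, ← map_sum, ← map_add, shG_pow, gg_eq]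
  filter_upwards [h1] with m hm
  rw [hm, Pi.add_apply, Finset.sum_apply]

theorem monRec_LF (h : IntRing A B) {f : ℕ → ℂ} (hf : MonRec A f) :
    LF (KB B h.field) (gg f) := by
  classical
  obtain ⟨r, a, b, ha, hb, h1⟩ := monRec_gg hf
  have hmemB : ∀ {c : ℕ → ℂ}, c ∈ A → ∀ z : GG, ∀ V : Submodule (KB B h.field) GG, z ∈ V →
      gg c * z ∈ V := by
    intro c hc z V hz
    have h2 : gg c * z = cK h.field ⟨c, h.le hc⟩ • z := by
      rw [Algebra.smul_def, alg_cK]
    rw [h2]
    exact V.smul_mem _ hz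
  let s : Set GG := insert 1 ((fun i => (shG ^ i) (gg f)) '' (Finset.range r : Set ℕ))
  have hs : s.Finite := ((Finset.range r).finite_toSet.image _).insert _
  let V : Submodule (KB B h.field) GG := Submodule.span (KB B h.field) s
  have h1V : (1 : GG) ∈ V := Submodule.subset_span (Set.mem_insert _ _)
  have hiV : ∀ i, i < r → (shG ^ i) (gg f) ∈ V := fun i hi =>
    Submodule.subset_span (Set.mem_insert_of_mem _ ⟨i, by simpa using hi, rfl⟩)
  have hrV : (shG ^ r) (gg f) ∈ V := by
    rw [h1]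
    refine V.add_mem ?_ (V.sum_mem fun k hk => hmemB (ha k) _ V (hiV k (Finset.mem_range.1 hk)))
    have h2 := hmemB hb 1 V h1V
    rwa [mul_one] at h2
  refine ⟨V, Submodule.fg_span hs, ?_, span_stable (shK h.field) (shG_alg h.field) ?_⟩
  · rcases Nat.eq_zero_or_pos r with h0 | h0
    · rw [h0, pow_zero] at hrV
      exact hrV
    · have h2 := hiV 0 h0
      rwa [pow_zero] at h2
  · rintro y (rfl | ⟨i, hi, rfl⟩)
    · rw [map_one]
      exact h1V
    · have hi' : i < r := by simpa using hi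
      change shG ((shG ^ i) (gg f)) ∈ V
      rw [shG_pow_succ]
      rcases Nat.lt_or_ge (i + 1) r with h2 | h2
      · exact hiV _ h2
      · have h3 : i + 1 = r := by omega
        rw [h3]
        exact hrV

/-- a finitely generated difference algebra of germs which contains the coordinates -/
theorem exists_AG (h : IntRing A B) {x : ℕ → Fin n → ℂ} (hx : ∀ j, MonRec A fun m => x m j) :
    ∃ G : Subalgebra ℂ GG, G.FG ∧ (∀ z ∈ G, shG z ∈ G) ∧ (∀ j, (gg fun m => x m j) ∈ G) ∧
      ∀ S : Subalgebra ℂ GG, (∀ z ∈ S, shG z ∈ S) → (∀ a ∈ A, gg a ∈ S) →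
        (∀ j, (gg fun m => x m j) ∈ S) → G ≤ S := by
  classical
  choose r a b ha hb hr using fun j => monRec_gg (hx j)
  obtain ⟨U, hU⟩ := h.fg
  let s : Set GG := (gg '' (U : Set (ℕ → ℂ))) ∪
    ⋃ j, (fun i => (shG ^ i) (gg fun m => x m j)) '' (Finset.range (r j) : Set ℕ)
  have hs : s.Finite := (U.finite_toSet.image _).union
    (Set.finite_iUnion fun j => (Finset.range (r j)).finite_toSet.image _)
  let G : Subalgebra ℂ GG := Algebra.adjoin ℂ s
  have hAG : ∀ a ∈ A, gg a ∈ G := by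
    intro c hc
    rw [← hU] at hc
    have h1 : gg c ∈ (Algebra.adjoin ℂ (U : Set (ℕ → ℂ))).map gg := ⟨c, hc, rfl⟩
    rw [AlgHom.map_adjoin] at h1
    exact Algebra.adjoin_mono Set.subset_union_left h1
  have hiG : ∀ j i, i < r j → (shG ^ i) (gg fun m => x m j) ∈ G := fun j i hi =>
    Algebra.subset_adjoin (Or.inr (Set.mem_iUnion.2 ⟨j, i, by simpa using hi, rfl⟩))
  have hrG : ∀ j, (shG ^ (r j)) (gg fun m => x m j) ∈ G := by
    intro j
    rw [hr j]
    exact G.add_mem (hAG _ (hb j)) (G.sum_mem fun k hk =>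
      G.mul_mem (hAG _ (ha j k)) (hiG j k (Finset.mem_range.1 hk)))
  refine ⟨G, ⟨hs.toFinset, by rw [Set.Finite.coe_toFinset]⟩, ?_, ?_, ?_⟩
  · intro z hz
    induction hz using Algebra.adjoin_induction with
    | mem z hz =>
      rcases hz with ⟨c, hc, rfl⟩ | hz
      · rw [shG_gg]
        apply hAG
        apply h.shift
        rw [← hU]
        exact Algebra.subset_adjoin hc
      · obtain ⟨j, i, hi, rfl⟩ := Set.mem_iUnion.1 hz
        have hi' : i < r j := by simpa using hi
        change shG ((shG ^ i) (gg fun m => x m j)) ∈ G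
        rw [shG_pow_succ]
        rcases Nat.lt_or_ge (i + 1) (r j) with h2 | h2
        · exact hiG j _ h2
        · have h3 : i + 1 = r j := by omega
          rw [h3]
          exact hrG j
    | algebraMap c =>
      have h1 : shG (algebraMap ℂ GG c) = algebraMap ℂ GG c := by
        rw [← gg.commutes c, shG_gg]
        rfl
      rw [h1]
      exact G.algebraMap_mem c
    | add x y _ _ hx hy =>
      rw [map_add]
      exact G.add_mem hx hy
    | mul x y _ _ hx hy =>
      rw [map_mul]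
      exact G.mul_mem hx hy
  · intro j
    rcases Nat.eq_zero_or_pos (r j) with h0 | h0
    · have h1 := hrG j
      rw [h0, pow_zero] at h1
      exact h1
    · have h2 := hiG j 0 h0
      rwa [pow_zero] at h2
  · intro S hSs hSA hSx
    apply Algebra.adjoin_le
    rintro z (⟨c, hc, rfl⟩ | hz)
    · apply hSA
      rw [← hU]
      exact Algebra.subset_adjoin hc
    · obtain ⟨j, i, -, rfl⟩ := Set.mem_iUnion.1 hz
      change (shG ^ i) (gg fun m => x m j) ∈ S
      clear hz
      induction i with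
      | zero => exact hSx j
      | succ i ih =>
        rw [← shG_pow_succ]
        exact hSs _ ih

/-- sequences over a field of germs -/
theorem sub_case {φ : R →+* ℂ} {I I' : Ideal (MvPolynomial (Fin n) R)}
    (h : GmCurvesIn φ I I') {T : Subalgebra ℂ GG} (hT : IsFld T)
    (hess : Algebra.EssFiniteType ℂ T) (htd : Algebra.trdeg ℂ T ≤ 1)
    {G : Subalgebra ℂ GG} (hG : G.FG) (hGs : ∀ z ∈ G, shG z ∈ G) (hGT : G ≤ T)
    {x : ℕ → Fin n → ℂ} (hY : ∀ i, (gg fun m => x m i) ∈ G)
    (hX : ∀ᶠ m in atTop, IsPt φ I (x m))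
    (hZ : ∀ᶠ m in atTop, ¬ IsPt φ I' (x m)) : ∃ c : Fin n → ℂ, ∀ᶠ m in atTop, x m = c := by
  let _ : Field T := hT.isField.toField
  let s : T →ₐ[ℂ] T :=
    { toFun := fun x => ⟨shG x, hT.1 x x.2⟩
      map_one' := Subtype.ext (map_one shG)
      map_mul' := fun x y => Subtype.ext (map_mul shG (x : GG) (y : GG))
      map_zero' := Subtype.ext (map_zero shG)
      map_add' := fun x y => Subtype.ext (map_add shG (x : GG) (y : GG))
      commutes' := fun c => Subtype.ext (by
        change shG (algebraMap ℂ GG c) = algebraMap ℂ GG c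
        rw [← gg.commutes c, shG_gg]
        rfl) }
  refine fld_case (K := T) (j := T.val) (s := s) h (fun z => rfl) hess htd
    (Y := fun i => ⟨_, hGT (hY i)⟩) (fun i => rfl) (A := G.comap T.val) ?_ ?_ (fun i => hY i) hX hZ
  · apply Subalgebra.fg_of_fg_map (G.comap T.val) T.val Subtype.val_injective
    have h1 : (G.comap T.val).map T.val = G := by
      ext z
      constructor
      · rintro ⟨y, hy, rfl⟩
        exact hy
      · intro hz
        exact ⟨⟨z, hGT hz⟩, hz, rfl⟩
    rw [h1]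
    exact hG
  · intro a ha
    exact hGs _ ha

section

variable {k : Type} [Field k] [Algebra ℂ k] [Algebra k GG] [IsScalarTower ℂ k GG]
  {S : Subalgebra k GG}

/-- sequences over a finite difference algebra -/
theorem aff_split {φ : R →+* ℂ} {I I' : Ideal (MvPolynomial (Fin n) R)}
    (h : GmCurvesIn φ I I') (hess : Algebra.EssFiniteType ℂ k)
    (htd : Algebra.trdeg ℂ k ≤ 1) (hst : ∀ x ∈ S, shG x ∈ S) (hfin : Module.Finite k S)
    {G : Subalgebra ℂ GG} (hG : G.FG) (hGs : ∀ z ∈ G, shG z ∈ G) (hGS : ∀ z ∈ G, z ∈ S)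
    {x : ℕ → Fin n → ℂ} (hY : ∀ i, (gg fun m => x m i) ∈ G)
    (hX : ∀ᶠ m in atTop, IsPt φ I (x m))
    (hZ : ∀ᶠ m in atTop, ¬ IsPt φ I' (x m)) :
    ∃ M, 0 < M ∧ ∀ a, ∃ c : Fin n → ℂ, ∀ᶠ m in atTop, x (a + M * m) = c := by
  obtain ⟨M, hM, hp⟩ := exists_period hst hfin
  refine ⟨M, hM, fun a => ?_⟩
  have hfld := Sa_fld hst hfin hM hp a
  obtain ⟨h1, h2⟩ := Sa_fg hfin hM a hfld hess htd
  refine sub_case h hfld h1 h2 (G := G.map (resG a M hM)) (hG.map _) ?_ ?_
    (x := fun m => x (a + M * m)) (fun i => ⟨_, hY i, rfl⟩) (ev_res hX hM) (ev_res hZ hM)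
  · rintro _ ⟨y, hy, rfl⟩
    have h3 : ∀ i : ℕ, ∀ z ∈ G, (shG ^ i) z ∈ G := by
      intro i
      induction i with
      | zero => exact fun z hz => hz
      | succ i ih =>
        intro z hz
        rw [← shG_pow_succ]
        exact hGs _ (ih z hz)
    exact ⟨(shG ^ M) y, h3 M y hy, (shG_resG a M hM y).symm⟩
  · rintro _ ⟨y, hy, rfl⟩
    exact ⟨y, hGS y hy, rfl⟩

end

/-- periodicity from the classes -/
theorem ev_per {x : ℕ → Fin n → ℂ} {M : ℕ} (hM : 0 < M)
    (h : ∀ a, ∃ c : Fin n → ℂ, ∀ᶠ m in atTop, x (a + M * m) = c) :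
    ∃ m0, ∀ m, m0 ≤ m → x (m + M) = x m := by
  classical
  choose c hc using h
  choose m1 hm1 using fun a => eventually_atTop.1 (hc a)
  set L := ∑ a ∈ Finset.range M, m1 a with hL
  refine ⟨M * (L + 1), fun q hq => ?_⟩
  have haM : q % M < M := Nat.mod_lt _ hM
  have hnm : q % M + M * (q / M) = q := Nat.mod_add_div q M
  have hmL : L ≤ q / M := by
    have h1 : L + 1 ≤ q / M := (Nat.le_div_iff_mul_le hM).2 (by rw [Nat.mul_comm]; exact hq)
    omega
  have hle : m1 (q % M) ≤ q / M := by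
    have h1 : m1 (q % M) ≤ ∑ a ∈ Finset.range M, m1 a :=
      Finset.single_le_sum (f := m1) (fun _ _ => Nat.zero_le _) (Finset.mem_range.2 haM)
    omega
  have h1 := hm1 (q % M) (q / M) hle
  have h2 := hm1 (q % M) (q / M + 1) (by omega)
  rw [hnm] at h1
  have h3 : q % M + M * (q / M + 1) = q + M := by
    conv_rhs => rw [← hnm]
    ring
  rw [h3] at h2
  rw [h1, h2]

/-- **The theorem for affine varieties.** -/
theorem main_aff {φ : R →+* ℂ} {I I' : Ideal (MvPolynomial (Fin n) R)}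
    (h : GmCurvesIn φ I I') (hAB : IntRing A B) {x : ℕ → Fin n → ℂ}
    (hx : ∀ j, MonRec A fun m => x m j) (hX : ∀ᶠ m in atTop, IsPt φ I (x m))
    (hZ : ∀ᶠ m in atTop, ¬ IsPt φ I' (x m)) :
    ∃ M m0, 0 < M ∧ ∀ m, m0 ≤ m → x (m + M) = x m := by
  classical
  have hB := hAB.field
  have hxl : ∀ j, LinRec B fun m => x m j := fun j => linRec_of_LF hB (monRec_LF hAB (hx j))
  obtain ⟨s, hs⟩ := exists_gm hB hxl (J := extI φ I) (by
    intro G hG
    filter_upwards [hX] with m hm
    exact (isPt_iff φ I _).1 hm G hG)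
  let y : ℕ → Fin n → ℂ := fun m => x (m + s)
  have hint : ∀ j, IsIntegral (KB B hB) (gg fun m => y m j) := by
    intro j
    refine int_of_cf hB fun J hJ hJp => ?_
    have hdom : IsDomain ((ℕ → ℂ) ⧸ J) := Ideal.Quotient.isDomain J
    apply rel_of_cf hB hJ hJp (FractionRing ((ℕ → ℂ) ⧸ J))
    by_contra hcon
    obtain ⟨m, ⟨l, p, h1, h2, h3⟩, h4⟩ :=
      ((hs J hJ hJp (FractionRing ((ℕ → ℂ) ⧸ J)) j hcon).and_eventually
        (eventually_shift hZ s)).exists
    apply h4
    rw [← h2]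
    exact h l p (fun u hu => (isPt_iff φ I _).2 (h1 u hu)) h3 1 one_ne_zero
  have hyA : ∀ j, MonRec A fun m => y m j := fun j => MonRec.shift hAB (hx j) s
  have hLF : ∀ j, LF (KB B hB) (gg fun m => y m j) := fun j => monRec_LF hAB (hyA j)
  have hone : LF (KB B hB) (1 : GG) := by
    have h1 := LF.alg (shK hB) (shG_alg hB) (1 : KB B hB)
    rwa [map_one] at h1
  obtain ⟨S, hyS, hst, hfin⟩ := exists_common hB (f := fun j => gg fun m => y m j)
    (r := fun j => gg fun m => y m j) (g := 1) hLF hone isUnit_one (fun j => one_mul _) hint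
  obtain ⟨G, hG, hGs, hGy, hGle⟩ := exists_AG hAB hyA
  have hGS : ∀ z ∈ G, z ∈ S := by
    have h1 := hGle (S.restrictScalars ℂ) (fun z hz => hst z hz) (fun a ha => by
      have h2 : gg a = algebraMap (KB B hB) GG (cK hB ⟨a, hAB.le ha⟩) := rfl
      rw [h2]
      exact S.algebraMap_mem _) hyS
    exact fun z hz => h1 hz
  obtain ⟨M, hM, hc⟩ := aff_split h (ess_of_finGen hB hAB.gen) (trdeg_of_trLe hB hAB.tr) hst hfin hG
    hGs hGS hGy (eventually_shift hX s) (eventually_shift hZ s)
  obtain ⟨m0, hm0⟩ := ev_per hM hc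
  refine ⟨M, m0 + s, hM, fun m hm => ?_⟩
  have h1 := hm0 (m - s) (by omega)
  have h2 : m - s + M + s = m + M := by omega
  have h3 : m - s + s = m := by omega
  simp only [y, h2, h3] at h1
  exact h1

end Pool.Agent.TH143.LG
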