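import Pool.Agent.TH143.GE.Endo
import Pool.Agent.TH143.GE.Gap

/-!
Function fields of one variable with an endomorphism which has an eigenfunction or a translated
function: invariant finite sets of places.
-/

set_option autoImplicit false
set_option linter.unusedSectionVars false

namespace Pool.Agent.TH143.LG

open FF Pool.Agent.W603.LV Module Pool.Agent.W619.PQ Pool.Agent.TH143.GE IntermediateField

variable {k K : Type} [Field k] [CharZero k] [IsAlgClosed k] [Field K] [Algebra k K] [IsFF k K]

/-- the place obtained from an automorphism -/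
noncomputable def pl (τ : K ≃ₐ[k] K) (P : Place k K) : Place k K where
  ord g := P.ord (τ g)
  ord_zero := by rw [map_zero, P.ord_zero]
  ord_mul := by
    intro f g hf hg
    rw [map_mul, P.ord_mul]
    · rwa [Ne, map_eq_zero_iff τ τ.injective]
    · rwa [Ne, map_eq_zero_iff τ τ.injective]
  ord_add := by
    intro f g hf hg hfg
    rw [map_add]
    apply P.ord_add
    · rwa [Ne, map_eq_zero_iff τ τ.injective]
    · rwa [Ne, map_eq_zero_iff τ τ.injective]
    · rwa [← map_add, Ne, map_eq_zero_iff τ τ.injective]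
  ord_const := by
    intro c hc
    rw [τ.commutes]
    exact P.ord_const hc
  surj := by
    obtain ⟨t, ht, h1⟩ := P.surj
    refine ⟨τ.symm t, ?_, ?_⟩
    · rwa [Ne, map_eq_zero_iff τ.symm τ.symm.injective]
    · rw [τ.apply_symm_apply, h1]

theorem pl_ord (τ : K ≃ₐ[k] K) (P : Place k K) (g : K) : (pl τ P).ord g = P.ord (τ g) := rfl

theorem pl_iter (τ : K ≃ₐ[k] K) (P : Place k K) (n : ℕ) (g : K) :
    ((pl τ)^[n] P).ord g = P.ord (τ^[n] g) := by
  induction n generalizing g with
  | zero => rfl
  | succ n ih =>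
    rw [Function.iterate_succ_apply', pl_ord, ih, Function.iterate_succ_apply]

/-- places in a finite stable set are periodic -/
theorem per_of_fin (τ : K ≃ₐ[k] K) {T : Set (Place k K)} (hT : T.Finite)
    (h : ∀ P ∈ T, pl τ P ∈ T) {P : Place k K} (hP : P ∈ T) :
    ∃ n, 0 < n ∧ ∀ g, P.ord (τ^[n] g) = P.ord g := by
  have hmem : ∀ n, (pl τ)^[n] P ∈ T := by
    intro n
    induction n with
    | zero => exact hP
    | succ n ih =>
      rw [Function.iterate_succ_apply']
      exact h _ ih
  have : Finite T := hT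
  obtain ⟨i, j, hij, he⟩ := Finite.exists_ne_map_eq_of_infinite
    (fun n : ℕ => (⟨(pl τ)^[n] P, hmem n⟩ : T))
  have he' : (pl τ)^[i] P = (pl τ)^[j] P := congrArg Subtype.val he
  have key : ∀ i j : ℕ, i < j → (pl τ)^[i] P = (pl τ)^[j] P →
      ∃ n, 0 < n ∧ ∀ g, P.ord (τ^[n] g) = P.ord g := by
    intro i j hij he
    refine ⟨j - i, by omega, fun g => ?_⟩
    have h1 := congrArg (fun v : Place k K => v.ord (τ.symm^[i] g)) he
    simp only [pl_iter] at h1
    have h2 : ∀ n : ℕ, τ^[n] (τ.symm^[n] g) = g := fun n =>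
      Function.LeftInverse.iterate (f := τ.symm) (g := τ) (fun z => τ.apply_symm_apply z) n g
    have h3 : τ^[j] (τ.symm^[i] g) = τ^[j - i] g := by
      have h4 : j = (j - i) + i := by omega
      conv_lhs => rw [h4, Function.iterate_add_apply]
      rw [h2]
    rw [h2, h3] at h1
    exact h1.symm
  rcases lt_or_gt_of_ne hij with h1 | h1
  · exact key i j h1 he'
  · exact key j i h1 he'.symm

/-- **The bound**, in abstract form. -/
theorem bound (τ : K ≃ₐ[k] K) {E : Derivation k K K} (hE : E ≠ 0) (hc : ∀ g, E (τ g) = τ (E g))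
    (Q : Finset (Place k K))
    (hQ : ∀ T : Set (Place k K), T.Finite → (∀ P ∈ T, pl τ P ∈ T) → ∀ P ∈ T, P ∈ Q)
    (hvo : ∀ P ∈ Q, 1 ≤ vo P E) (hQc : ∀ P : Place k K, P ∉ Q → pl τ P ∉ Q)
    (S : Finset (Place k K)) (hS : ∀ P ∈ S, pl τ P ∈ S) : canDeg k K + S.card ≤ 0 := by
  classical
  have hvp : ∀ P : Place k K, vo (pl τ P) E = vo P E := by
    intro P
    have hu : P.ord (τ (unif (pl τ P))) = 1 := ord_unif (pl τ P)
    obtain ⟨h1, h2⟩ := ord_der P hE (f := τ (unif (pl τ P))) (by omega)
    rw [hu, hc] at h2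
    have h3 : vo (pl τ P) E = P.ord (τ (E (unif (pl τ P)))) := rfl
    rw [h3, h2]
    ring
  have h1 : ∀ P : Place k K, vo P E ≠ 0 → P ∈ Q := by
    intro P hP
    by_contra hPQ
    apply hPQ
    refine hQ {P | P ∉ Q ∧ vo P E ≠ 0} ((vo_finite hE).subset fun P hP => hP.2) ?_ P ⟨hPQ, hP⟩
    rintro P ⟨h1, h2⟩
    exact ⟨hQc P h1, by rwa [hvp]⟩
  have h2 := canDeg_finset hE Q h1
  have h3 : (Q.card : ℤ) ≤ ∑ P ∈ Q, vo P E := by
    have h4 : ∑ P ∈ Q, (1 : ℤ) ≤ ∑ P ∈ Q, vo P E := Finset.sum_le_sum hvo
    simpa using h4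
  have h4 : S ⊆ Q := fun P hP => hQ (S : Set (Place k K)) S.finite_toSet
    (fun P hP => hS P hP) P hP
  have h5 : (S.card : ℤ) ≤ Q.card := by exact_mod_cast Finset.card_le_card h4
  linarith

/-- surjectivity -/
theorem surj_of (s : K →ₐ[k] K) {f : K} (hf : Transcendental k f) {a b : k} (ha : a ≠ 0)
    (h : s f = algebraMap k K a * f + algebraMap k K b) : Function.Surjective s := by
  classical
  have hfin := IsFF.finite (k := k) (K := K) hf
  have ha' : algebraMap k K a ≠ 0 := by rwa [Ne, map_eq_zero]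
  -- the restriction to the subfield is onto
  have hsub : ∀ c : k⟮f⟯, ∃ c' : k⟮f⟯, s (c' : K) = c := by
    have h1 : k⟮f⟯ ≤ k⟮f⟯.map s := by
      rw [IntermediateField.adjoin_le_iff, Set.singleton_subset_iff]
      have h2 : f = s (algebraMap k K a⁻¹ * (f - algebraMap k K b)) := by
        rw [map_mul, map_sub, h, s.commutes, s.commutes, map_inv₀]
        field_simp
        ring
      have h3 : algebraMap k K a⁻¹ * (f - algebraMap k K b) ∈ k⟮f⟯ :=
        mul_mem (IntermediateField.algebraMap_mem _ _)
          (sub_mem (IntermediateField.mem_adjoin_simple_self k f)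
            (IntermediateField.algebraMap_mem _ _))
      exact ⟨_, h3, h2.symm⟩
    intro c
    obtain ⟨c', hc', h2⟩ := h1 c.2
    exact ⟨⟨c', hc'⟩, h2⟩
  let b := Module.finBasis k⟮f⟯ K
  have hli : LinearIndependent k⟮f⟯ (fun i => s (b i)) := by
    rw [Fintype.linearIndependent_iff]
    intro g hg
    choose g' hg' using fun i => hsub (g i)
    have h1 : s (∑ i, g' i • b i) = 0 := by
      rw [map_sum, ← hg]
      refine Finset.sum_congr rfl fun i _ => ?_
      rw [Algebra.smul_def, map_mul, Algebra.smul_def]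
      congr 1
      exact hg' i
    have h2 := (map_eq_zero_iff s s.injective).1 h1
    have h3 := (Fintype.linearIndependent_iff.1 b.linearIndependent) g' h2
    intro i
    have h4 := hg' i
    rw [h3 i] at h4
    apply Subtype.ext
    rw [← h4]
    simp
  have hspan : Submodule.span k⟮f⟯ (Set.range fun i => s (b i)) = ⊤ :=
    hli.span_eq_top_of_card_eq_finrank' (by simp)
  intro z
  have hz : z ∈ Submodule.span k⟮f⟯ (Set.range fun i => s (b i)) := by
    rw [hspan]
    exact Submodule.mem_top
  obtain ⟨g, hg⟩ := (Submodule.mem_span_range_iff_exists_fun _).1 hz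
  choose g' hg' using fun i => hsub (g i)
  refine ⟨∑ i, g' i • b i, ?_⟩
  rw [map_sum, ← hg]
  refine Finset.sum_congr rfl fun i _ => ?_
  rw [Algebra.smul_def, map_mul, Algebra.smul_def]
  congr 1
  exact hg' i

theorem finite_poles {f : K} (hf : Transcendental k f) :
    ∃ Q : Finset (Place k K), ∀ P, P ∈ Q ↔ P.ord f < 0 := by
  obtain ⟨S, hS, -⟩ := poles (k := k) (K := K) hf
  exact ⟨S, hS⟩

/-- **Translations.** -/
theorem bound_add (s : K →ₐ[k] K) {f : K} (hf : Transcendental k f) (h : s f = f + 1)
    (S : Finset (Place k K)) (hS : ∀ P ∈ S, ∀ P' : Place k K, (∀ g, P'.ord (s g) = P.ord g) →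
      P' ∈ S) : canDeg k K + S.card ≤ 0 := by
  classical
  have hsurj := surj_of s hf (a := 1) (b := 1) one_ne_zero (by rw [map_one, one_mul, h])
  let σ : K ≃ₐ[k] K := AlgEquiv.ofBijective s ⟨s.injective, hsurj⟩
  have hσ : ∀ g, σ g = s g := fun g => rfl
  let τ := σ.symm
  have hτs : ∀ g, τ (s g) = g := fun g => σ.symm_apply_apply g
  have hsτ : ∀ g, s (τ g) = g := fun g => σ.apply_symm_apply g
  obtain ⟨E, hE, hEf⟩ := exists_ddx hf
  obtain ⟨c, hc0, hc⟩ := exists_c s hE
  have hc1 : c = 1 := by
    have h1 := hc f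
    rw [h, map_add, hEf, Derivation.map_one_eq_zero, add_zero, map_one, mul_one] at h1
    exact h1.symm
  have hcomm : ∀ g, E (τ g) = τ (E g) := by
    intro g
    have h1 := hc (τ g)
    rw [hsτ, hc1, one_mul] at h1
    rw [h1, hτs]
  have hτf : ∀ n : ℕ, τ^[n] f = f - algebraMap k K n := by
    intro n
    induction n with
    | zero => simp
    | succ n ih =>
      rw [Function.iterate_succ_apply', ih, map_sub, τ.commutes]
      have h1 : τ f = f - 1 := by
        have h2 := hτs f
        rw [h, map_add, map_one] at h2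
        exact eq_sub_of_add_eq h2
      rw [h1]
      push_cast
      ring
  obtain ⟨Q, hQ⟩ := finite_poles hf
  refine bound τ hE hcomm Q ?_ ?_ ?_ S ?_
  · intro T hT hst P hP
    obtain ⟨n, hn, hper⟩ := per_of_fin τ hT hst hP
    rw [hQ]
    by_contra hreg
    rw [not_lt] at hreg
    obtain ⟨c', hc'⟩ := exists_const P (f := f) (Or.inr hreg)
    have hne : f - algebraMap k K c' ≠ 0 := by
      intro h0
      apply hf
      rw [sub_eq_zero.1 h0]
      exact isAlgebraic_algebraMap c'
    have h1 := hc'.resolve_left hne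
    have h2 := hper (f - algebraMap k K c')
    have h3 : ∀ m : ℕ, τ^[m] (f - algebraMap k K c') = f - algebraMap k K m -
        algebraMap k K c' := by
      intro m
      induction m with
      | zero => simp
      | succ m ih =>
        rw [Function.iterate_succ_apply', ih, map_sub, map_sub, τ.commutes, τ.commutes]
        have h1 := hτf 1
        rw [Function.iterate_one] at h1
        rw [h1]
        push_cast
        ring
    rw [h3] at h2
    have hG : Ge P 1 (algebraMap k K (n : k)) := by
      have h4 : Ge P 1 (f - algebraMap k K n - algebraMap k K c') := Or.inr (by omega)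
      have h5 := hc'.sub h4
      have h6 : f - algebraMap k K c' - (f - algebraMap k K (n : k) - algebraMap k K c') =
          algebraMap k K (n : k) := by ring
      rwa [h6] at h5
    have hn0 : (n : k) ≠ 0 := by exact_mod_cast hn.ne'
    rcases hG with h4 | h4
    · rw [map_eq_zero] at h4
      exact hn0 h4
    · rw [P.ord_const hn0] at h4
      omega
  · intro P hP
    rw [hQ] at hP
    obtain ⟨h1, h2⟩ := ord_der P hE (f := f) (by omega)
    rw [hEf, P.ord_one] at h2
    omega
  · intro P hP hPQ
    rw [hQ, pl_ord] at hPQ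
    rw [hQ, not_lt] at hP
    have h1 := hτf 1
    rw [Function.iterate_one] at h1
    have h2 : Ge P 0 (τ f) := by
      rw [h1]
      have h3 : Ge P 0 f := Or.inr hP
      exact h3.sub (Ge.const _)
    rcases h2 with h2 | h2
    · rw [h2, P.ord_zero] at hPQ
      omega
    · omega
  · intro P hP
    refine hS P hP _ fun g => ?_
    rw [pl_ord, hτs]

/-- **Eigenfunctions.** -/
theorem bound_mul (s : K →ₐ[k] K) {f : K} (hf : Transcendental k f) {a : k} (ha : a ≠ 0)
    (ha1 : ∀ n : ℕ, 0 < n → a ^ n ≠ 1) (h : s f = algebraMap k K a * f)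
    (S : Finset (Place k K)) (hS : ∀ P ∈ S, ∀ P' : Place k K, (∀ g, P'.ord (s g) = P.ord g) →
      P' ∈ S) : canDeg k K + S.card ≤ 0 := by
  classical
  have hsurj := surj_of s hf (a := a) (b := 0) ha (by rw [map_zero, add_zero, h])
  let σ : K ≃ₐ[k] K := AlgEquiv.ofBijective s ⟨s.injective, hsurj⟩
  let τ := σ.symm
  have hτs : ∀ g, τ (s g) = g := fun g => σ.symm_apply_apply g
  have hsτ : ∀ g, s (τ g) = g := fun g => σ.apply_symm_apply g
  have hf0 : f ≠ 0 := by
    rintro rfl
    exact hf (isAlgebraic_zero)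
  have ha' : algebraMap k K a ≠ 0 := by rwa [Ne, map_eq_zero]
  obtain ⟨E0, hE0, hE0f⟩ := exists_ddx hf
  set E : Derivation k K K := f • E0 with hEdef
  have hEf : E f = f := by
    rw [hEdef, Derivation.smul_apply, hE0f, smul_eq_mul, mul_one]
  have hE : E ≠ 0 := by
    intro h0
    rw [h0] at hEf
    exact hf0 hEf.symm
  obtain ⟨c, hc0, hc⟩ := exists_c s hE
  have hc1 : c = 1 := by
    have h1 := hc f
    rw [h, hEf, h] at h1
    have h2 : E (algebraMap k K a * f) = algebraMap k K a * f := by
      rw [← Algebra.smul_def, Derivation.map_smul, hEf]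
    rw [h2] at h1
    have h3 : algebraMap k K a * f ≠ 0 := mul_ne_zero ha' hf0
    exact (mul_right_cancel₀ h3 ((one_mul _).trans h1)).symm
  have hcomm : ∀ g, E (τ g) = τ (E g) := by
    intro g
    have h1 := hc (τ g)
    rw [hsτ, hc1, one_mul] at h1
    rw [h1, hτs]
  have hτf : τ f = algebraMap k K a⁻¹ * f := by
    have h2 := hτs f
    rw [h, map_mul, τ.commutes] at h2
    rw [map_inv₀]
    field_simp
    rw [mul_comm]
    exact h2
  have hτn : ∀ (c' : k) (n : ℕ), τ^[n] (f - algebraMap k K c') =
      algebraMap k K (a⁻¹ ^ n) * f - algebraMap k K c' := by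
    intro c' n
    induction n with
    | zero => simp
    | succ n ih =>
      rw [Function.iterate_succ_apply', ih, map_sub, map_mul, τ.commutes, τ.commutes, hτf,
        pow_succ, map_mul]
      ring
  have hQf := finite_support (k := k) f
  refine bound τ hE hcomm hQf.toFinset ?_ ?_ ?_ S ?_
  · intro T hT hst P hP
    obtain ⟨n, hn, hper⟩ := per_of_fin τ hT hst hP
    rw [Set.Finite.mem_toFinset]
    intro hord
    obtain ⟨c', hc'⟩ := exists_const P (f := f) (Or.inr (by
      have h1 : P.ord f = 0 := hord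
      omega))
    have hne : f - algebraMap k K c' ≠ 0 := by
      intro h0
      apply hf
      rw [sub_eq_zero.1 h0]
      exact isAlgebraic_algebraMap c'
    have h1 := hc'.resolve_left hne
    have h2 := hper (f - algebraMap k K c')
    rw [hτn] at h2
    have hG : Ge P 1 (algebraMap k K (c' * (1 - a⁻¹ ^ n))) := by
      have h4 : Ge P 1 (algebraMap k K (a⁻¹ ^ n) * f - algebraMap k K c') := Or.inr (by omega)
      have h5 := (Ge.const (P := P) (a⁻¹ ^ n)).mul hc'
      rw [zero_add] at h5
      have h6 := h5.sub h4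
      have h7 : algebraMap k K (a⁻¹ ^ n) * (f - algebraMap k K c') -
          (algebraMap k K (a⁻¹ ^ n) * f - algebraMap k K c') =
          algebraMap k K (c' * (1 - a⁻¹ ^ n)) := by
        rw [map_mul, map_sub, map_one]
        ring
      rwa [h7] at h6
    have hne2 : (1 - a⁻¹ ^ n : k) ≠ 0 := by
      intro h0
      apply ha1 n hn
      have h8 : a⁻¹ ^ n = 1 := (sub_eq_zero.1 h0).symm
      rw [inv_pow, inv_eq_one] at h8
      exact h8
    have hc0 : c' = 0 := by
      by_contra hne3
      rcases hG with h4 | h4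
      · rw [map_eq_zero] at h4
        exact mul_ne_zero hne3 hne2 h4
      · rw [P.ord_const (mul_ne_zero hne3 hne2)] at h4
        omega
    rw [hc0, map_zero, sub_zero] at h1
    have h9 : P.ord f = 0 := hord
    omega
  · intro P hP
    rw [Set.Finite.mem_toFinset] at hP
    have hP' : P.ord f ≠ 0 := hP
    obtain ⟨h1, h2⟩ := ord_der P hE (f := f) hP'
    rw [hEf] at h2
    omega
  · intro P hP hPQ
    apply hP
    rw [Set.Finite.mem_toFinset] at hPQ ⊢
    have h1 : (pl τ P).ord f ≠ 0 := hPQ
    rw [pl_ord, hτf] at h1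
    have h2 : algebraMap k K a⁻¹ ≠ 0 := by
      rw [Ne, map_eq_zero]
      exact inv_ne_zero ha
    rw [P.ord_mul h2 hf0, P.ord_const (inv_ne_zero ha), zero_add] at h1
    exact h1
  · intro P hP
    refine hS P hP _ fun g => ?_
    rw [pl_ord, hτs]

/-- **Eigenfunctions and translated functions.** -/
theorem exists_eig (s : K →ₐ[k] K) {W : Submodule k K} (hW : W.FG) (hWs : ∀ w ∈ W, s w ∈ W)
    {t : K} (ht : t ∈ W) (htr : Transcendental k t) :
    ∃ f : K, Transcendental k f ∧ (s f = f + 1 ∨ ∃ a : k, a ≠ 0 ∧ s f = algebraMap k K a * f) := by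
  classical
  have hfd : FiniteDimensional k W := (Submodule.fg_iff_finiteDimensional W).1 hW
  let T : Module.End k W :=
    { toFun := fun w => ⟨s w, hWs w w.2⟩
      map_add' := fun x y => Subtype.ext (map_add s _ _)
      map_smul' := fun c x => Subtype.ext (map_smul s c (x : K)) }
  have hT : ∀ w : W, ((T w : W) : K) = s (w : K) := fun w => rfl
  -- a transcendental generalized eigenvector
  obtain ⟨μ, u, hu, hut⟩ : ∃ (μ : k) (u : W), u ∈ T.maxGenEigenspace μ ∧
      Transcendental k (u : K) := by
    by_contra hcon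
    push Not at hcon
    have h1 : (⟨t, ht⟩ : W) ∈ ⨆ μ, T.maxGenEigenspace μ := by
      rw [Module.End.iSup_maxGenEigenspace_eq_top]
      exact Submodule.mem_top
    apply htr
    refine Submodule.iSup_induction (p := fun μ => T.maxGenEigenspace μ)
      (motive := fun w : W => IsAlgebraic k (w : K)) h1 ?_ ?_ ?_
    · intro μ w hw
      by_contra h2
      exact hcon μ w hw h2
    · exact isAlgebraic_zero
    · intro x y hx hy
      exact hx.add hy
  obtain ⟨n, hn⟩ := (Module.End.mem_maxGenEigenspace T μ u).1 hu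
  -- the last transcendental power
  have hex : ∃ m, IsAlgebraic k (((T - μ • (1 : Module.End k W)) ^ m) u : K) := ⟨n, by
    rw [hn]
    exact isAlgebraic_zero⟩
  obtain ⟨m, hm⟩ : ∃ m, Nat.find hex = m + 1 := by
    rcases Nat.eq_zero_or_pos (Nat.find hex) with h0 | h0
    · have h1 := Nat.find_spec hex
      rw [h0, pow_zero] at h1
      exact absurd h1 hut
    · exact ⟨Nat.find hex - 1, by omega⟩
  set v : W := ((T - μ • (1 : Module.End k W)) ^ m) u with hv
  have hvt : Transcendental k (v : K) := Nat.find_min hex (by omega)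
  have hva : IsAlgebraic k (s (v : K) - algebraMap k K μ * v) := by
    have h1 := Nat.find_spec hex
    rw [hm, pow_succ', Module.End.mul_apply, ← hv] at h1
    have h2 : (((T - μ • (1 : Module.End k W)) v : W) : K) = s (v : K) - algebraMap k K μ * v := by
      rw [LinearMap.sub_apply, LinearMap.smul_apply, Module.End.one_apply]
      rw [Submodule.coe_sub, hT, Submodule.coe_smul, Algebra.smul_def]
    rwa [h2] at h1
  obtain ⟨c, hc⟩ := minpoly.mem_range_of_degree_eq_one k (s (v : K) - algebraMap k K μ * v)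
      (IsAlgClosed.degree_eq_one_of_irreducible k (minpoly.irreducible hva.isIntegral))
  have hsv : s (v : K) = algebraMap k K μ * v + algebraMap k K c := by
    rw [hc]
    ring
  have htc : ∀ (a b : k), a ≠ 0 → Transcendental k (algebraMap k K a * (v : K) +
      algebraMap k K b) := by
    intro a b ha hal
    apply hvt
    have h1 : (v : K) = algebraMap k K a⁻¹ * ((algebraMap k K a * (v : K) + algebraMap k K b) -
        algebraMap k K b) := by
      have h2 : algebraMap k K a ≠ 0 := by rwa [Ne, map_eq_zero]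
      rw [map_inv₀]
      field_simp
      ring
    rw [h1]
    exact (isAlgebraic_algebraMap _).mul (hal.sub (isAlgebraic_algebraMap _))
  by_cases hμ : μ = 1
  · by_cases hc0 : c = 0
    · refine ⟨v, hvt, Or.inr ⟨1, one_ne_zero, ?_⟩⟩
      rw [hsv, hμ, hc0]
      simp
    · refine ⟨algebraMap k K c⁻¹ * v + algebraMap k K 0, htc _ _ (inv_ne_zero hc0), Or.inl ?_⟩
      have h2 : algebraMap k K c ≠ 0 := by rwa [Ne, map_eq_zero]
      rw [map_add, map_mul, s.commutes, s.commutes, hsv, hμ, map_inv₀, map_one, map_zero]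
      field_simp
      ring
  · have h1 : μ - 1 ≠ 0 := sub_ne_zero.2 hμ
    have h2 : algebraMap k K (μ - 1) ≠ 0 := by rwa [Ne, map_eq_zero]
    set f := algebraMap k K 1 * (v : K) + algebraMap k K (c / (μ - 1)) with hf
    have hft : Transcendental k f := htc 1 _ one_ne_zero
    have hsf : s f = algebraMap k K μ * f := by
      rw [hf, map_add, map_mul, s.commutes, s.commutes, hsv, map_one, map_div₀]
      field_simp
      rw [map_sub, map_one]
      ring
    refine ⟨f, hft, Or.inr ⟨μ, ?_, hsf⟩⟩
    rintro rfl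
    rw [map_zero, zero_mul, map_eq_zero_iff s s.injective] at hsf
    rw [hsf] at hft
    exact hft isAlgebraic_zero

end Pool.Agent.TH143.LG
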