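import Pool.Agent.TH143.LG.Laur
import Pool.Agent.TH143.GE.Split
import Pool.Agent.TH143.HE.Cur

/-!
Affine varieties: sequences of points with coordinates in a finitely generated difference ring of
functions on a curve.
-/

set_option autoImplicit false
set_option linter.unusedSectionVars false

namespace Pool.Agent.TH143.LG

open MvPolynomial Filter Pool.Agent.TH143.DE Pool.Agent.TH143.HE Pool.Agent.TH143.TW FF
open Module Pool.Agent.W603.LV Pool.Agent.W619.PQ Pool.Agent.TH143.GE

variable {n : ℕ} {R : Type} [CommRing R] {K : Type} [Field K] [Algebra ℂ K] {j : K →ₐ[ℂ] GG}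
  {s : K →ₐ[ℂ] K}

theorem j_iter (hs : ∀ z, j (s z) = shG (j z)) (m : ℕ) (z : K) :
    j (s^[m] z) = (shG ^ m) (j z) := by
  induction m with
  | zero => rfl
  | succ m ih =>
    rw [Function.iterate_succ_apply', hs, ih, shG_pow_succ]

/-- periodic functions are constant -/
theorem per_alg (hs : ∀ z, j (s z) = shG (j z)) (m : ℕ) (hm : 0 < m) (f : K) (h : s^[m] f = f) :
    IsAlgebraic ℂ f := by
  obtain ⟨F, hF⟩ := gg_surj (j f)
  have h1 := j_iter hs m f
  rw [h, ← hF, shG_pow, gg_eq] at h1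
  obtain ⟨m0, hm0⟩ := eventually_atTop.1 h1
  have h2 : ∀ t i : ℕ, F (m0 + i + m * t) = F (m0 + i) := by
    intro t i
    induction t with
    | zero => rw [Nat.mul_zero, Nat.add_zero]
    | succ t ih =>
      rw [← ih, hm0 (m0 + i + m * t) (by
        have := Nat.zero_le (m * t)
        omega)]
      congr 1
      ring
  refine ⟨∏ i ∈ Finset.range m, (Polynomial.X - Polynomial.C (F (m0 + i))), ?_, ?_⟩
  · exact Finset.prod_ne_zero_iff.2 fun i _ => Polynomial.X_sub_C_ne_zero _
  · apply j.toRingHom.injective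
    change j (Polynomial.aeval f _) = j 0
    rw [← Polynomial.aeval_algHom_apply, ← hF, Polynomial.aeval_algHom_apply, map_zero, ← map_zero gg,
      gg_eq]
    refine eventually_atTop.2 ⟨m0, fun q hq => ?_⟩
    have h3 : (Polynomial.aeval F (∏ i ∈ Finset.range m, (Polynomial.X -
        Polynomial.C (F (m0 + i)))) : ℕ → ℂ) q =
        ∏ i ∈ Finset.range m, (F q - F (m0 + i)) := by
      rw [map_prod, Finset.prod_apply]
      refine Finset.prod_congr rfl fun i _ => ?_
      rw [map_sub, Polynomial.aeval_X, Polynomial.aeval_C]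
      rfl
    rw [h3, Pi.zero_apply]
    have h4 := h2 ((q - m0) / m) ((q - m0) % m)
    have h5 : m0 + (q - m0) % m + m * ((q - m0) / m) = q := by
      have h6 := Nat.mod_add_div (q - m0) m
      omega
    rw [h5] at h4
    exact Finset.prod_eq_zero (Finset.mem_range.2 (Nat.mod_lt (q - m0) hm)) (by
      rw [h4, sub_self])

/-- the values of a function of one variable -/
theorem j_aeval {t : K} {τ : ℕ → ℂ} (ht : j t = gg τ) (p : Polynomial ℂ) :
    j (Polynomial.aeval t p) = gg fun m => p.eval (τ m) := by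
  rw [← Polynomial.aeval_algHom_apply, ht, Polynomial.aeval_algHom_apply]
  congr 1
  funext m
  have h1 := Polynomial.aeval_algHom_apply (Pi.evalAlgHom ℂ (fun _ : ℕ => ℂ) m) τ p
  have h2 : (Pi.evalAlgHom ℂ (fun _ : ℕ => ℂ) m) τ = τ m := rfl
  rw [h2, Polynomial.aeval_def, Polynomial.eval₂_eq_eval_map] at h1
  have h3 : (Polynomial.aeval τ p : ℕ → ℂ) m =
    (Pi.evalAlgHom ℂ (fun _ : ℕ => ℂ) m) (Polynomial.aeval τ p) := rfl
  rw [h3, ← h1]
  simp

/-- **The theorem over a function field.** -/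
theorem fld_case {φ : R →+* ℂ} {I I' : Ideal (MvPolynomial (Fin n) R)} (h : GmCurvesIn φ I I')
    (hs : ∀ z, j (s z) = shG (j z)) (hess : Algebra.EssFiniteType ℂ K)
    (htd : Algebra.trdeg ℂ K ≤ 1) {x : ℕ → Fin n → ℂ} {Y : Fin n → K}
    (hY : ∀ i, j (Y i) = gg fun m => x m i) {A : Subalgebra ℂ K} (hA : A.FG)
    (hAs : ∀ a ∈ A, s a ∈ A) (hYA : ∀ i, Y i ∈ A) (hX : ∀ᶠ m in atTop, IsPt φ I (x m))
    (hZ : ∀ᶠ m in atTop, ¬ IsPt φ I' (x m)) : ∃ c : Fin n → ℂ, ∀ᶠ m in atTop, x m = c := by
  classical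
  have hconst : ∀ c : Fin n → ℂ, (∀ i, Y i = algebraMap ℂ K (c i)) → ∀ᶠ m in atTop, x m = c := by
    intro c hc
    have h1 : ∀ᶠ m in atTop, ∀ i, x m i = c i := by
      rw [eventually_all]
      intro i
      have h2 := hY i
      rw [hc, j.commutes, ← gg.commutes, gg_eq] at h2
      filter_upwards [h2] with m hm
      exact hm.symm
    filter_upwards [h1] with m hm
    exact funext hm
  by_cases halg : ∀ i, IsAlgebraic ℂ (Y i)
  · have h1 : ∀ i, ∃ c : ℂ, Y i = algebraMap ℂ K c := by
      intro i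
      have h4 := IsAlgClosed.degree_eq_one_of_irreducible ℂ
        (minpoly.irreducible (halg i).isIntegral)
      obtain ⟨a, ha⟩ := minpoly.mem_range_of_degree_eq_one ℂ _ h4
      exact ⟨a, ha.symm⟩
    choose c hc using h1
    exact ⟨c, hconst c hc⟩
  exfalso
  push Not at halg
  obtain ⟨i0, hi0⟩ := halg
  have hff : IsFF ℂ K := by
    refine ⟨hess, le_antisymm htd ?_⟩
    by_contra hlt
    rw [not_le, Cardinal.lt_one_iff, _root_.trdeg_eq_zero_iff] at hlt
    exact hi0 (hlt.isAlgebraic _)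
  have hjinj : Function.Injective j := j.toRingHom.injective
  -- the set of poles
  obtain ⟨T, hT⟩ := hA
  let S0 : Set (Place ℂ K) := {P | ∃ a ∈ A, P.ord a < 0}
  have hS0 : S0.Finite := by
    have h1 : (⋃ a ∈ T, {P : Place ℂ K | P.ord a ≠ 0}).Finite :=
      Set.Finite.biUnion T.finite_toSet fun a _ => finite_support (k := ℂ) a
    refine h1.subset ?_
    rintro P ⟨a, ha, hPa⟩
    by_contra hcon
    have h2 : ∀ b ∈ T, P.ord b = 0 := by
      intro b hb
      by_contra hne
      exact hcon (Set.mem_biUnion hb hne)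
    have h3 : ∀ a ∈ Algebra.adjoin ℂ (T : Set K), Ge P 0 a := by
      intro a ha
      induction ha using Algebra.adjoin_induction with
      | mem x hx => exact Or.inr (h2 x hx).ge
      | algebraMap c => exact Ge.const c
      | add x y _ _ hx hy => exact hx.add hy
      | mul x y _ _ hx hy =>
        have := hx.mul hy
        rwa [add_zero] at this
    rw [hT] at h3
    rcases h3 a ha with h4 | h4
    · rw [h4, P.ord_zero] at hPa
      omega
    · omega
  let S := hS0.toFinset
  have hSmem : ∀ P, P ∈ S ↔ ∃ a ∈ A, P.ord a < 0 := fun P => Set.Finite.mem_toFinset _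
  have hSp : ∀ v ∈ S, ∀ (P : Place ℂ K) (e : ℕ), 0 < e → (∀ g, P.ord (s g) = e * v.ord g) →
      P ∈ S := by
    intro v hv P e he h1
    obtain ⟨a, ha, hva⟩ := (hSmem v).1 hv
    refine (hSmem P).2 ⟨s a, hAs a ha, ?_⟩
    rw [h1]
    have h2 : (0 : ℤ) < e := by exact_mod_cast he
    nlinarith
  have hbd := log_bound s (fun m hm f hf => per_alg hs m hm f hf) S hSp
  have hSne : S.Nonempty := by
    obtain ⟨P, hP, hP2⟩ := poles (k := ℂ) (K := K) hi0
    have hfin := IsFF.finite (k := ℂ) (K := K) hi0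
    have hpos : 0 < Module.finrank (IntermediateField.adjoin ℂ {Y i0}) K := Module.finrank_pos
    obtain ⟨v, hv⟩ : P.Nonempty := by
      rw [Finset.nonempty_iff_ne_empty]
      rintro rfl
      rw [Finset.sum_empty] at hP2
      omega
    exact ⟨v, (hSmem v).2 ⟨_, hYA i0, (hP v).1 hv⟩⟩
  obtain ⟨t, ht, hlau⟩ := laurent hSne hbd
  have htr := transcendental_of_top ht
  choose l p hp using fun i => hlau (Y i) fun P hP => (hSmem P).2 ⟨_, hYA i, hP⟩
  -- a common exponent
  let L := ∑ i, l i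
  let p' : Fin n → Polynomial ℂ := fun i => p i * Polynomial.X ^ (L - l i)
  have hlL : ∀ i, l i ≤ L := fun i =>
    Finset.single_le_sum (f := l) (fun _ _ => Nat.zero_le _) (Finset.mem_univ i)
  have hp' : ∀ i, Y i * t ^ L = Polynomial.aeval t (p' i) := by
    intro i
    have h1 : L = l i + (L - l i) := by have := hlL i; omega
    simp only [p']
    rw [map_mul, map_pow, Polynomial.aeval_X, ← hp i, mul_assoc, ← pow_add, ← h1]
  obtain ⟨τ, hτ⟩ := gg_surj (j t)
  have ht0 : t ≠ 0 := by
    rintro rfl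
    exact htr isAlgebraic_zero
  have hτ0 : ∀ᶠ m in atTop, τ m ≠ 0 := by
    apply unit_ne
    rw [hτ]
    exact (isUnit_iff_ne_zero.2 ht0).map j
  have hxg : ∀ᶠ m in atTop, x m = gm L p' (τ m) := by
    have h1 : ∀ᶠ m in atTop, ∀ i, x m i * τ m ^ L = (p' i).eval (τ m) := by
      rw [eventually_all]
      intro i
      have h2 := congrArg j (hp' i)
      rw [map_mul, map_pow, hY, j_aeval hτ.symm, ← hτ, ← map_pow, ← map_mul, gg_eq] at h2
      exact h2
    filter_upwards [h1, hτ0] with m h2 h3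
    funext i
    unfold gm
    rw [← h2 i, mul_div_cancel_right₀ _ (pow_ne_zero _ h3)]
  have hzero : ∀ H : Polynomial ℂ, (∀ᶠ m in atTop, H.eval (τ m) = 0) → H = 0 := by
    intro H hH
    by_contra hne
    apply htr
    refine ⟨H, hne, hjinj ?_⟩
    rw [j_aeval hτ.symm, map_zero, ← map_zero gg, gg_eq]
    exact hH
  have hI : ∀ u, u ≠ 0 → IsPt φ I (gm L p' u) := by
    intro u hu
    rw [isPt_iff]
    intro G hG
    let v : Fin (n + 1) → Polynomial ℂ := Fin.cons (Polynomial.X ^ L) p'
    have hv : ∀ u : ℂ, u ≠ 0 → ((aeval v (homog G) : Polynomial ℂ).eval u) =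
        (u ^ L) ^ G.totalDegree * eval (gm L p' u) G := by
      intro u hu
      rw [eval_aeval]
      have h1 := eval_homog G (fun k => (v k).eval u) (by
        change (Polynomial.X ^ L : Polynomial ℂ).eval u ≠ 0
        rw [Polynomial.eval_pow, Polynomial.eval_X]
        exact pow_ne_zero _ hu)
      rw [h1]
      have h2 : (v 0).eval u = u ^ L := by
        change (Polynomial.X ^ L : Polynomial ℂ).eval u = _
        rw [Polynomial.eval_pow, Polynomial.eval_X]
      rw [h2]
      rfl
    have h1 : (aeval v (homog G) : Polynomial ℂ) = 0 := by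
      apply hzero
      filter_upwards [hτ0, hxg, hX] with m h1 h2 h3
      rw [hv _ h1, ← h2, (isPt_iff φ I _).1 h3 G hG, mul_zero]
    have h2 := hv u hu
    rw [h1, Polynomial.eval_zero] at h2
    exact (mul_eq_zero.1 h2.symm).resolve_left (pow_ne_zero _ (pow_ne_zero _ hu))
  have hI' : ∀ u, u ≠ 0 → IsPt φ I' (gm L p' u) := by
    refine h L p' hI ?_
    by_contra hcon
    push Not at hcon
    apply hi0
    have h1 : ∀ᶠ m in atTop, x m i0 = gm L p' 1 i0 := by
      filter_upwards [hτ0, hxg] with m h1 h2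
      rw [h2, hcon _ h1]
    have h2 : Y i0 = algebraMap ℂ K (gm L p' 1 i0) := by
      apply hjinj
      rw [hY, j.commutes, ← gg.commutes, gg_eq]
      exact h1
    rw [h2]
    exact isAlgebraic_algebraMap _
  obtain ⟨m, ⟨h1, h2⟩, h3⟩ := ((hτ0.and hxg).and hZ).exists
  apply h3
  rw [h2]
  exact hI' _ h1

end Pool.Agent.TH143.LG
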