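import Pool.Agent.TH143.LG.Log

/-!
Function fields of the line: functions with at most two poles.
-/

set_option autoImplicit false
set_option linter.unusedSectionVars false

namespace Pool.Agent.TH143.LG

open FF Pool.Agent.W603.LV Module Pool.Agent.W619.PQ Pool.Agent.TH143.GE IntermediateField

variable {k K : Type} [Field k] [CharZero k] [IsAlgClosed k] [Field K] [Algebra k K] [IsFF k K]

theorem ge_aeval {t : K} {P : Place k K} (ht : Ge P 0 t) (p : Polynomial k) :
    Ge P 0 (Polynomial.aeval t p) := by
  induction p using Polynomial.induction_on' with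
  | add p q hp hq =>
    rw [map_add]
    exact hp.add hq
  | monomial n c =>
    rw [Polynomial.aeval_monomial]
    have h1 : ∀ n : ℕ, Ge P 0 (t ^ n) := by
      intro n
      induction n with
      | zero =>
        rw [pow_zero]
        exact Ge.one
      | succ n ih =>
        rw [pow_succ]
        have := ih.mul ht
        rwa [add_zero] at this
    have := (Ge.const (P := P) c).mul (h1 n)
    rwa [add_zero] at this

/-- functions whose only pole is the pole of a generator -/
theorem poly_of_reg {t : K} (ht : k⟮t⟯ = ⊤) {P0 : Place k K} (hP0 : P0.ord t < 0)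
    {g : K} (hg : ∀ P : Place k K, P ≠ P0 → 0 ≤ P.ord g) : ∃ p : Polynomial k,
      g = Polynomial.aeval t p := by
  classical
  have htr := transcendental_of_top ht
  have key : ∀ (n : ℕ) (s r : Polynomial k), s.natDegree = n → s ≠ 0 →
      Polynomial.aeval t r = g * Polynomial.aeval t s → ∃ p : Polynomial k,
        g = Polynomial.aeval t p := by
    intro n
    induction n with
    | zero =>
      intro s r hs hs0 hrs
      obtain ⟨c, hc⟩ := Polynomial.natDegree_eq_zero.1 hs
      have hc0 : c ≠ 0 := by
        rintro rfl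
        rw [map_zero] at hc
        exact hs0 hc.symm
      refine ⟨Polynomial.C c⁻¹ * r, ?_⟩
      have h1 : algebraMap k K c ≠ 0 := by rwa [Ne, map_eq_zero]
      rw [map_mul, Polynomial.aeval_C, hrs, ← hc, Polynomial.aeval_C, map_inv₀]
      field_simp
    | succ n ih =>
      intro s r hs hs0 hrs
      obtain ⟨c, hc⟩ := IsAlgClosed.exists_root s (by
        rw [Polynomial.degree_eq_natDegree hs0, hs]
        exact_mod_cast Nat.succ_ne_zero n)
      obtain ⟨s', rfl⟩ := Polynomial.dvd_iff_isRoot.2 hc
      obtain ⟨P, hP, -⟩ := zero_unique (top_sub ht c)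
      have htc : t - algebraMap k K c ≠ 0 := sub_const_ne htr c
      have hreg : Ge P 0 t := by
        have h1 : Ge P 0 (t - algebraMap k K c) := Or.inr (by omega)
        have h2 := h1.add (Ge.const c)
        rwa [sub_add_cancel] at h2
      have ht0 : t ≠ 0 := by
        rintro rfl
        exact htr isAlgebraic_zero
      have hPne : P ≠ P0 := by
        rintro rfl
        have := hreg.resolve_left ht0
        omega
      have hroot : r.IsRoot c := by
        by_contra hne
        have hne' : r.eval c ≠ 0 := hne
        obtain ⟨q, hq⟩ := Polynomial.X_sub_C_dvd_sub_C_eval (a := c) (p := r)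
        have h1 : Ge P 1 (Polynomial.aeval t r) := by
          rw [hrs, map_mul, map_sub, Polynomial.aeval_X, Polynomial.aeval_C]
          have h2 : Ge P 0 g := Or.inr (hg P hPne)
          have h3 : Ge P 1 (t - algebraMap k K c) := Or.inr (by omega)
          have h4 := h2.mul (h3.mul (ge_aeval hreg s'))
          have h5 : (0 : ℤ) + (1 + 0) = 1 := by norm_num
          rwa [h5] at h4
        have h6 : Ge P 1 (Polynomial.aeval t r - algebraMap k K (r.eval c)) := by
          have h7 := congrArg (Polynomial.aeval t) hq
          rw [map_sub, Polynomial.aeval_C, map_mul, map_sub, Polynomial.aeval_X,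
            Polynomial.aeval_C] at h7
          rw [h7]
          have h3 : Ge P 1 (t - algebraMap k K c) := Or.inr (by omega)
          have h4 := h3.mul (ge_aeval hreg q)
          rwa [add_zero] at h4
        have h8 := h1.sub h6
        have h9 : Polynomial.aeval t r - (Polynomial.aeval t r - algebraMap k K (r.eval c)) =
            algebraMap k K (r.eval c) := by ring
        rw [h9] at h8
        rcases h8 with h8 | h8
        · rw [map_eq_zero] at h8
          exact hne' h8
        · rw [P.ord_const hne'] at h8
          omega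
      obtain ⟨r', rfl⟩ := Polynomial.dvd_iff_isRoot.2 hroot
      have hs'0 : s' ≠ 0 := right_ne_zero_of_mul hs0
      refine ih s' r' ?_ hs'0 ?_
      · rw [Polynomial.natDegree_mul (Polynomial.X_sub_C_ne_zero c) hs'0,
          Polynomial.natDegree_X_sub_C] at hs
        omega
      · rw [map_mul, map_mul, map_sub, Polynomial.aeval_X, Polynomial.aeval_C] at hrs
        apply mul_left_cancel₀ htc
        rw [hrs]
        ring
  have h2 : g ∈ k⟮t⟯ := by
    rw [ht]
    exact IntermediateField.mem_top
  obtain ⟨r, s, hrs⟩ := (IntermediateField.mem_adjoin_simple_iff k g).1 h2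
  by_cases h0 : Polynomial.aeval t s = 0
  · refine ⟨0, ?_⟩
    rw [hrs, h0, div_zero, map_zero]
  · refine key s.natDegree s r rfl ?_ ?_
    · rintro rfl
      exact h0 (map_zero _)
    · rw [hrs, div_mul_cancel₀ _ h0]

/-- **Laurent polynomials.** -/
theorem laurent {S : Finset (Place k K)} (hS : S.Nonempty) (h : canDeg k K + S.card ≤ 0) :
    ∃ t : K, k⟮t⟯ = ⊤ ∧ ∀ f : K, (∀ P : Place k K, P.ord f < 0 → P ∈ S) →
      ∃ (l : ℕ) (p : Polynomial k), f * t ^ l = Polynomial.aeval t p := by
  classical
  have hcard : 0 < S.card := hS.card_pos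
  obtain ⟨t0, ht0⟩ := rational_of_neg (k := k) (K := K) (by omega)
  have hcan := canDeg_rational (k := k) ht0
  have hc2 : S.card ≤ 2 := by omega
  obtain ⟨P0, hP0⟩ := hS
  -- a generator with the pole P0
  obtain ⟨t1, ht1, hp1, hp2⟩ : ∃ t1 : K, k⟮t1⟯ = ⊤ ∧ P0.ord t1 < 0 ∧
      ∀ Q : Place k K, Q.ord t1 < 0 → Q = P0 := by
    by_cases h1 : P0.ord t0 < 0
    · obtain ⟨P, hP, hP2⟩ := pole_unique ht0
      refine ⟨t0, ht0, h1, fun Q hQ => ?_⟩
      rw [hP2 Q hQ, hP2 P0 h1]
    · rw [not_lt] at h1
      obtain ⟨D, hD, hDx⟩ := exists_ddx (transcendental_of_top ht0)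
      obtain ⟨-, a, ha1, ha2⟩ := vo_finite_place ht0 hD hDx P0 h1
      refine ⟨(t0 - algebraMap k K a)⁻¹, ?_, ?_, fun Q hQ => ?_⟩
      · rw [adjoin_inv]
        exact top_sub ht0 a
      · rw [P0.ord_inv]
        omega
      · rw [Q.ord_inv] at hQ
        exact ha2 Q (by omega)
  -- a generator which vanishes at the second place
  obtain ⟨t, ht, hq1, hq2, hq3⟩ : ∃ t : K, k⟮t⟯ = ⊤ ∧ P0.ord t < 0 ∧
      (∀ Q : Place k K, Q.ord t < 0 → Q = P0) ∧ ∀ P ∈ S, P ≠ P0 → 0 < P.ord t := by
    by_cases h1 : ∃ P1 ∈ S, P1 ≠ P0
    · obtain ⟨P1, hP1, hne⟩ := h1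
      have h2 : 0 ≤ P1.ord t1 := by
        by_contra hcon
        exact hne (hp2 P1 (by omega))
      obtain ⟨D, hD, hDx⟩ := exists_ddx (transcendental_of_top ht1)
      obtain ⟨-, a, ha1, ha2⟩ := vo_finite_place ht1 hD hDx P1 h2
      have hsub : S = {P0, P1} := by
        symm
        apply Finset.eq_of_subset_of_card_le
        · intro P hP
          rcases Finset.mem_insert.1 hP with rfl | hP
          · exact hP0
          · rw [Finset.mem_singleton.1 hP]
            exact hP1
        · rw [Finset.card_pair hne.symm]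
          exact hc2
      have hne1 : t1 - algebraMap k K a ≠ 0 := sub_const_ne (transcendental_of_top ht1) a
      refine ⟨t1 - algebraMap k K a, top_sub ht1 a, ?_, fun Q hQ => ?_, fun P hP hPne => ?_⟩
      · by_contra hcon
        have h3 : Ge P0 0 (t1 - algebraMap k K a) := Or.inr (by omega)
        have h4 := h3.add (Ge.const a)
        rw [sub_add_cancel] at h4
        rcases h4 with h4 | h4
        · rw [h4, P0.ord_zero] at hp1
          omega
        · omega
      · apply hp2
        by_contra hcon
        have h3 : Ge Q 0 t1 := Or.inr (by omega)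
        have h4 := h3.sub (Ge.const a)
        have h5 := h4.resolve_left hne1
        omega
      · rw [hsub] at hP
        rcases Finset.mem_insert.1 hP with rfl | hP
        · exact absurd rfl hPne
        · rw [Finset.mem_singleton.1 hP, ha1]
          exact one_pos
    · push Not at h1
      exact ⟨t1, ht1, hp1, hp2, fun P hP hne => absurd (h1 P hP) hne⟩
  refine ⟨t, ht, fun f hf => ?_⟩
  have ht0' : t ≠ 0 := by
    rintro rfl
    exact transcendental_of_top ht isAlgebraic_zero
  by_cases hf0 : f = 0
  · exact ⟨0, 0, by rw [hf0, zero_mul, map_zero]⟩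
  set l := ∑ P ∈ S, (- P.ord f).toNat with hl
  obtain ⟨p, hp⟩ := poly_of_reg ht hq1 (g := f * t ^ l) (fun P hP => by
    rw [P.ord_mul hf0 (pow_ne_zero _ ht0'), P.ord_pow]
    by_cases hPS : P ∈ S
    · have h1 := hq3 P hPS hP
      have h2 : (- P.ord f).toNat ≤ l :=
        Finset.single_le_sum (f := fun P : Place k K => (- P.ord f).toNat)
          (fun _ _ => Nat.zero_le _) hPS
      have h3 : - P.ord f ≤ l := by
        have h4 := Int.self_le_toNat (- P.ord f)
        omega
      have h5 : (l : ℤ) * 1 ≤ l * P.ord t := mul_le_mul_of_nonneg_left (by omega)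
        (Int.natCast_nonneg _)
      omega
    · have h1 : 0 ≤ P.ord f := by
        by_contra hcon
        exact hPS (hf P (by omega))
      have h2 : 0 ≤ P.ord t := by
        by_contra hcon
        exact hP (hq2 P (by omega))
      have h3 : (0 : ℤ) ≤ l * P.ord t := mul_nonneg (Int.natCast_nonneg _) h2
      omega)
  exact ⟨l, p, hp⟩

end Pool.Agent.TH143.LG
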