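import Pool.Agent.TH143.LG.Eig

/-!
Function fields of one variable with an endomorphism and an invariant finite set of places:
logarithmic forms.
-/

set_option autoImplicit false
set_option linter.unusedSectionVars false

namespace Pool.Agent.TH143.LG

open FF Pool.Agent.W603.LV Module Pool.Agent.W619.PQ Pool.Agent.TH143.GE IntermediateField

variable {k K : Type} [Field k] [CharZero k] [IsAlgClosed k] [Field K] [Algebra k K] [IsFF k K]

/-- the divisor `N` times the sum of the places in `S` -/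
noncomputable def DS (S : Finset (Place k K)) (N : ℕ) : Place k K →₀ ℤ :=
  ∑ P ∈ S, Finsupp.single P (N : ℤ)

open Classical in
theorem DS_apply (S : Finset (Place k K)) (N : ℕ) (P : Place k K) :
    DS S N P = if P ∈ S then (N : ℤ) else 0 := by
  unfold DS
  rw [Finsupp.finset_sum_apply]
  simp only [Finsupp.single_apply]
  rw [Finset.sum_ite_eq']

theorem ddeg_zero' : ddeg (0 : Place k K →₀ ℤ) = 0 := by
  unfold ddeg
  exact Finsupp.sum_zero_index

theorem ddeg_DS (S : Finset (Place k K)) (N : ℕ) : ddeg (DS S N) = N * S.card := by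
  classical
  unfold DS
  induction S using Finset.induction_on with
  | empty =>
    rw [Finset.sum_empty, ddeg_zero']
    simp
  | insert a S ha ih =>
    rw [Finset.sum_insert ha, ddeg_add, ddeg_single, ih, deg_one, Finset.card_insert_of_notMem ha]
    push_cast
    ring

open Classical in
theorem mem_DNS {E : Derivation k K K} {hE : E ≠ 0} {S : Finset (Place k K)} {N : ℕ} {f : K} :
    f ∈ LL (DN E hE N + DS S N) ↔ f = 0 ∨ ∀ P : Place k K,
      (N : ℤ) * vo P E - (if P ∈ S then (N : ℤ) else 0) ≤ P.ord f := by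
  rw [mem_LL]
  constructor
  · intro h
    refine h.imp id fun h P => ?_
    have h1 := h P
    rw [Finsupp.add_apply, DN_apply, DS_apply] at h1
    linarith
  · intro h
    refine h.imp id fun h P => ?_
    have h1 := h P
    rw [Finsupp.add_apply, DN_apply, DS_apply]
    linarith

/-- many logarithmic forms -/
theorem exists_two_log (E : Derivation k K K) (hE : E ≠ 0) (S : Finset (Place k K))
    (hpos : 0 < canDeg k K + S.card) :
    ∃ N : ℕ, 2 ≤ finrank k (LL (DN E hE N + DS S N)) := by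
  obtain ⟨γ, N', hγ, -⟩ := riemann k K
  refine ⟨(γ + 2).toNat, ?_⟩
  have h1 := hγ (DN E hE (γ + 2).toNat + DS S (γ + 2).toNat)
  rw [ddeg_add, ddeg_DN, ddeg_DS] at h1
  unfold ell at h1
  have h2 : (γ + 2 : ℤ) ≤ ((γ + 2).toNat : ℤ) := Int.self_le_toNat _
  have h3 : ((γ + 2).toNat : ℤ) ≤ ((γ + 2).toNat : ℤ) * canDeg k K +
      ((γ + 2).toNat : ℤ) * S.card := by
    have h4 : (0 : ℤ) ≤ ((γ + 2).toNat : ℤ) := Int.natCast_nonneg _
    nlinarith
  have h5 : (2 : ℤ) ≤
      (finrank k (LL (DN E hE (γ + 2).toNat + DS S (γ + 2).toNat)) : ℤ) := by linarith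
  exact_mod_cast h5

section pull

variable {L : Type} [Field L] [Algebra k L] [IsFF k L] [Algebra K L] [IsScalarTower k K L]

/-- **Pull-back of logarithmic forms.** -/
theorem pull_log {E : Derivation k K K} (hE : E ≠ 0) {E' : Derivation k L L} (hE' : E' ≠ 0) {c : L}
    (hc : ∀ f : K, E' (algebraMap K L f) = c * algebraMap K L (E f)) {N : ℕ} {f : K}
    {S : Finset (Place k K)} {S' : Finset (Place k L)}
    (hS : ∀ v ∈ S, ∀ (P : Place k L) (e : ℕ), Over P v e → P ∈ S')
    (hf : f ∈ LL (DN E hE N + DS S N)) : algebraMap K L f * c ^ N ∈ LL (DN E' hE' N + DS S' N) := by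
  classical
  rw [mem_DNS] at hf ⊢
  by_cases hf0 : f = 0
  · left
    rw [hf0, map_zero, zero_mul]
  have hf1 := hf.resolve_left hf0
  right
  intro P
  obtain ⟨e, v, hov⟩ := exists_over (K := K) P (ord_nontrivial P)
  have hu := ord_unif v
  have he : P.ord (algebraMap K L (unif v)) = e := by
    rw [hov.2, hu, mul_one]
  have he0 : (0 : ℤ) < e := by exact_mod_cast hov.1
  obtain ⟨h1, h2⟩ := ord_der P hE' (f := algebraMap K L (unif v)) (by rw [he]; omega)
  rw [hc] at h1 h2
  have hc0 : c ≠ 0 := left_ne_zero_of_mul h1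
  have hE0 : algebraMap K L (E (unif v)) ≠ 0 := right_ne_zero_of_mul h1
  rw [P.ord_mul hc0 hE0, hov.2, he] at h2
  have h3 : v.ord (E (unif v)) = vo v E := rfl
  rw [h3] at h2
  have hfL : algebraMap K L f ≠ 0 := by rwa [Ne, map_eq_zero]
  rw [P.ord_mul hfL (pow_ne_zero _ hc0), P.ord_pow, hov.2]
  have h4 := hf1 v
  have h6 : (N : ℤ) * (P.ord c + e * vo v E) = N * (e - 1 + vo P E') := by rw [h2]
  have h7 : (0 : ℤ) ≤ N := Int.natCast_nonneg _
  by_cases hv : v ∈ S
  · have hP := hS v hv P e hov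
    rw [if_pos hv] at h4
    rw [if_pos hP]
    have h5 : (e : ℤ) * ((N : ℤ) * vo v E - N) ≤ e * v.ord f :=
      mul_le_mul_of_nonneg_left h4 he0.le
    nlinarith
  · rw [if_neg hv, sub_zero] at h4
    have h5 : (e : ℤ) * ((N : ℤ) * vo v E) ≤ e * v.ord f := mul_le_mul_of_nonneg_left h4 he0.le
    have h8 : (N : ℤ) * vo P E' - (if P ∈ S' then (N : ℤ) else 0) ≤ N * vo P E' := by
      split_ifs
      · omega
      · omega
    refine h8.trans ?_
    nlinarith

end pull

theorem endo_log (s : K →ₐ[k] K) {E : Derivation k K K} (hE : E ≠ 0) {c : K}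
    (hc : ∀ f : K, E (s f) = c * s (E f)) {N : ℕ} {f : K} {S : Finset (Place k K)}
    (hS : ∀ v ∈ S, ∀ (P : Place k K) (e : ℕ), 0 < e → (∀ g, P.ord (s g) = e * v.ord g) → P ∈ S)
    (hf : f ∈ LL (DN E hE N + DS S N)) :
    s f * c ^ N ∈ LL (DN E hE N + DS S N) :=
  @pull_log k K _ _ _ _ _ _ K _ _ _ (s : K →+* K).toAlgebra
    (@IsScalarTower.mk k K K _ (s : K →+* K).toAlgebra.toSMul _ (fun a b x => by
      change s (a • b) * x = a • (s b * x)
      rw [map_smul, smul_mul_assoc])) E hE E hE c hc N f S S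
      (fun v hv P e h => hS v hv P e h.1 h.2) hf

/-- stable spaces of functions from stable spaces of forms -/
theorem exists_W_of (s : K →ₐ[k] K) {c : K} (hc0 : c ≠ 0) {N : ℕ} {V : Submodule k K}
    (hfd : FiniteDimensional k V) (hst : ∀ f ∈ V, s f * c ^ N ∈ V) (hN : 2 ≤ finrank k V) :
    ∃ W : Submodule k K, W.FG ∧ (∀ w ∈ W, s w ∈ W) ∧ ∃ w ∈ W, Transcendental k w := by
  let T : V →ₗ[k] V :=
    { toFun := fun f => ⟨s f * c ^ N, hst f f.2⟩
      map_add' := fun f g => Subtype.ext (by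
        change s ((f : K) + g) * c ^ N = s f * c ^ N + s g * c ^ N
        rw [map_add, add_mul])
      map_smul' := fun a f => Subtype.ext (by
        change s (a • (f : K)) * c ^ N = a • (s f * c ^ N)
        rw [map_smul, smul_mul_assoc]) }
  have hnt : Nontrivial V := by
    by_contra hcon
    rw [not_nontrivial_iff_subsingleton] at hcon
    have := Module.finrank_zero_of_subsingleton (R := k) (M := V)
    omega
  obtain ⟨μ, hμ⟩ := Module.End.exists_eigenvalue T
  obtain ⟨v, hv⟩ := hμ.exists_hasEigenvector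
  have hv1 : T v = μ • v := hv.apply_eq_smul
  have hv2 : (v : K) ≠ 0 := by
    intro h0
    exact hv.2 (Subtype.ext h0)
  have hv3 : s (v : K) * c ^ N = μ • (v : K) := congrArg Subtype.val hv1
  have hsv : s (v : K) ≠ 0 := by rwa [Ne, map_eq_zero_iff s s.injective]
  have hcN : c ^ N ≠ 0 := pow_ne_zero _ hc0
  have hμ0 : μ ≠ 0 := by
    rintro rfl
    rw [zero_smul] at hv3
    exact mul_ne_zero hsv hcN hv3
  let M : K →ₗ[k] K := LinearMap.mulRight k (v : K)⁻¹
  refine ⟨V.map M, ?_, ?_, ?_⟩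
  · exact Submodule.FG.map _ ((Submodule.fg_iff_finiteDimensional V).2 inferInstance)
  · rintro w ⟨f, hf, rfl⟩
    refine ⟨μ⁻¹ • (s f * c ^ N), V.smul_mem _ (hst f hf), ?_⟩
    change (μ⁻¹ • (s f * c ^ N)) * (v : K)⁻¹ = s (f * (v : K)⁻¹)
    rw [map_mul, map_inv₀]
    have h1 : (v : K) = μ⁻¹ • (s (v : K) * c ^ N) := by
      rw [hv3, smul_smul, inv_mul_cancel₀ hμ0, one_smul]
    have h2 : μ⁻¹ • (s (v : K) * c ^ N) ≠ 0 := by rw [← h1]; exact hv2
    have h3 : ((v : K))⁻¹ = (μ⁻¹ • (s (v : K) * c ^ N))⁻¹ := congrArg _ h1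
    rw [h3, Algebra.smul_def, Algebra.smul_def]
    have h4 : algebraMap k K μ⁻¹ ≠ 0 := by
      rw [Ne, map_eq_zero]
      exact inv_ne_zero hμ0
    generalize algebraMap k K μ⁻¹ = a at h4 ⊢
    field_simp
  · by_contra hcon
    push Not at hcon
    have h1 : ∀ f ∈ V, ∃ a : k, f = a • (v : K) := by
      intro f hf
      have h2 := hcon (f * (v : K)⁻¹) ⟨f, hf, rfl⟩
      have h3 : IsAlgebraic k (f * (v : K)⁻¹) := by
        by_contra h4
        exact h2 h4
      have h4 := IsAlgClosed.degree_eq_one_of_irreducible k (minpoly.irreducible h3.isIntegral)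
      obtain ⟨a, ha⟩ := minpoly.mem_range_of_degree_eq_one k _ h4
      refine ⟨a, ?_⟩
      rw [Algebra.smul_def, ha, inv_mul_cancel_right₀ hv2]
    have h2 : finrank k V ≤ 1 := by
      apply finrank_le_one v
      intro w
      obtain ⟨a, ha⟩ := h1 w w.2
      exact ⟨a, Subtype.ext ha.symm⟩
    omega

/-- **The bound.** If the endomorphism `s` has no nonconstant periodic functions, and all places
over the places in `S` are in `S`, then `2 g - 2 + |S| ≤ 0`. -/
theorem log_bound (s : K →ₐ[k] K) (hper : ∀ n : ℕ, 0 < n → ∀ f : K, s^[n] f = f → IsAlgebraic k f)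
    (S : Finset (Place k K))
    (hS : ∀ v ∈ S, ∀ (P : Place k K) (e : ℕ), 0 < e → (∀ g, P.ord (s g) = e * v.ord g) → P ∈ S) :
    canDeg k K + S.card ≤ 0 := by
  by_contra hcon
  push Not at hcon
  have hE : der k K ≠ 0 := der_ne
  obtain ⟨N, hN⟩ := exists_two_log (der k K) hE S hcon
  obtain ⟨c, hc0, hc⟩ := exists_c s hE
  obtain ⟨W, hW, hWs, t, ht, htr⟩ := exists_W_of s hc0 (N := N) inferInstance
    (fun f hf => endo_log s hE hc hS hf) hN
  have hS' : ∀ P ∈ S, ∀ P' : Place k K, (∀ g, P'.ord (s g) = P.ord g) → P' ∈ S :=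
    fun P hP P' h => hS P hP P' 1 one_pos fun g => by rw [h g]; simp
  obtain ⟨f, hf, h1 | ⟨a, ha, h1⟩⟩ := exists_eig s hW hWs ht htr
  · have := bound_add s hf h1 S hS'
    omega
  · have := bound_mul s hf ha (fun n hn h0 => ?_) h1 S hS'
    · omega
    · apply hf
      apply hper n hn
      have h2 : ∀ m : ℕ, s^[m] f = algebraMap k K (a ^ m) * f := by
        intro m
        induction m with
        | zero => simp
        | succ m ih =>
          rw [Function.iterate_succ_apply', ih, map_mul, s.commutes, h1, pow_succ, map_mul]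
          ring
      rw [h2, h0, map_one, one_mul]

end Pool.Agent.TH143.LG
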